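import Mathlib
import Pool.Agent.H32.TMFib

namespace Pool.Agent.Results.MP_e68cb8_nt.Liminf

open Pool.Agent.H32.TMFib Filter

/-- The ratio `|h_n| / |h_{n-1}|`. -/
noncomputable def rho (n : ℕ) : ℝ := |(h n : ℝ)| / |(h (n - 1) : ℝ)|

/-- The lower limit `C_{k,i}`. -/
noncomputable def C (k i : ℕ) : ℝ := liminf (fun n => rho (2 ^ k * n + i + 1)) atTop

theorem result : 12 / 41 ≤ C 1 0 ∧ C 1 0 ≠ 2 / 7 := by
  have key : ∀ n, 10 ≤ n → 12 / 41 ≤ rho (2 ^ 1 * n + 0 + 1) ∧ rho (2 ^ 1 * n + 0 + 1) ≤ 5 := by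
    intro n hn
    obtain ⟨a, b, c⟩ := q2 n hn
    have a' : (0 : ℝ) < |(h (2 * n) : ℝ)| := abs_pos.2 (by exact_mod_cast a)
    have b' : (12 : ℝ) * |(h (2 * n) : ℝ)| ≤ 41 * |(h (2 * n + 1) : ℝ)| := by exact_mod_cast b
    have c' : |(h (2 * n + 1) : ℝ)| ≤ 5 * |(h (2 * n) : ℝ)| := by exact_mod_cast c
    simp only [rho, pow_one, add_zero, Nat.add_sub_cancel]
    rw [le_div_iff₀ a', div_le_iff₀ a']
    constructor <;> linarith
  have : 12 / 41 ≤ C 1 0 := by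
    refine le_liminf_of_le (isCoboundedUnder_ge_of_eventually_le atTop (x := 5) ?_) ?_
    · exact (eventually_ge_atTop 10).mono fun n hn => (key n hn).2
    · exact (eventually_ge_atTop 10).mono fun n hn => (key n hn).1
  exact ⟨this, fun e => by rw [e] at this; norm_num at this⟩

end Pool.Agent.Results.MP_e68cb8_nt.Liminf
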