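import Mathlib
import Pool.Agent.H32.TMFib

namespace Pool.Agent.Results.MP_e68cb8_nt.Ratio

open Pool.Agent.H32.TMFib

theorem result (n : ℕ) (hn : 4 ≤ n) : (2 / 7 : ℝ) * |(h (n - 1) : ℝ)| ≤ |(h n : ℝ)| := by
  have : (2 : ℝ) * |(h (n - 1) : ℝ)| ≤ 7 * |(h n : ℝ)| := by exact_mod_cast q1 n hn
  linarith

end Pool.Agent.Results.MP_e68cb8_nt.Ratio
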